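import Pool.Agent.Q183.BX.FinA

set_option autoImplicit false

/-!
# Skew products over billiards: two sides with an irrational angle and commuting fibre maps

A point of a probability space `Y` is moved by a measure preserving flow `S` during the free motion
of the billiard ball in the convex polygon `P` and by the invertible measure preserving map `R k` at
each reflection in side `k`; the maps `R k` commute with `S`. Suppose that the lines of the sides
`i` and `j` make an angle which is not a rational multiple of `π` and that `R i` and `R j` commute.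
Then every measurable function `F` of the state and the point of `Y` which is invariant under this
motion and has finite directional variation is a function of the point of `Y` alone, invariant under
`S` and all `R k`. All such `F` are constant if and only if `S` and the `R k` have no invariant
measurable functions on `Y` besides the constants.
-/

namespace Pool.Agent.Results.MP_7bc51d_an.CommutingSkewProducts

open Pool.Agent.W780 Pool.Agent.W780.BB Pool.Agent.W780.PG MeasureTheory Pool.Agent.Q183.BX

open scoped Real

theorem result {n : ℕ} {p : Fin (n + 3) → ℂ} (hp : IsConvexPolygon p) {i j : Fin (n + 3)}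
    (hij : Irrational ((tau p i - tau p j) / π)) {Y : Type*} [MeasurableSpace Y]
    [MeasurableSpace.CountablyGenerated Y] {ν : Measure Y} [IsProbabilityMeasure ν]
    {S : ℝ → Y → Y} {R : Fin (n + 3) → Y ≃ᵐ Y} (hS : IsFibreMotion ν S R)
    (hR : ∀ y, R i (R j y) = R j (R i y)) :
    (∀ F : (ℂ × ℝ) × Y → ℝ, Measurable F → IsSkewInvariant p ν S R F → FiniteVariation p ν F →
      ∃ G : Y → ℝ, Measurable G ∧ (∀ t, ∀ᵐ y ∂ν, G (S t y) = G y) ∧
        (∀ k, ∀ᵐ y ∂ν, G (R k y) = G y) ∧
        ∀ᵐ q : (ℂ × ℝ) × Y ∂((volume : Measure (ℂ × ℝ)).prod ν), q.1 ∈ phase p → F q = G q.2) ∧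
    ((∀ F : (ℂ × ℝ) × Y → ℝ, Measurable F → IsSkewInvariant p ν S R F → FiniteVariation p ν F →
        ∃ c : ℝ, ∀ᵐ q : (ℂ × ℝ) × Y ∂((volume : Measure (ℂ × ℝ)).prod ν),
          q.1 ∈ phase p → F q = c) ↔
      ∀ G : Y → ℝ, Measurable G → (∀ t, ∀ᵐ y ∂ν, G (S t y) = G y) →
        (∀ k, ∀ᵐ y ∂ν, G (R k y) = G y) → ∃ c : ℝ, ∀ᵐ y ∂ν, G y = c) :=
  ⟨fun _ hF hI hV => const_skew hS hp hij hR hF hI hV, skew_main hS hp hij hR⟩

end Pool.Agent.Results.MP_7bc51d_an.CommutingSkewProducts
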