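import Pool.Agent.Q183.BX.FinC

set_option autoImplicit false

/-!
# Billiards with a flow in the fibre: irrational polygons and functions of slow variation

A point of a probability space `Y` is moved by a measure preserving flow `S` during the free motion
of the billiard ball in the convex polygon `P` and by an invertible measure preserving map `R k` at
each reflection in side `k`; the maps `R k` commute with `S`. Suppose that every function on `Y`
which is invariant under `S` is invariant under all `R k` (for instance `S` is ergodic and the `R k`
are arbitrary, or all `R k` are the identity and `S` is arbitrary). Then some angle of `P` is not a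
rational multiple of `π` if and only if every invariant function of the state and the point of `Y`
with slow directional variation is a function of the point of `Y` alone, invariant under `S`.
-/

namespace Pool.Agent.Results.MP_7bc51d_an.FibreFlows

open Pool.Agent.W780 Pool.Agent.W780.BB Pool.Agent.W780.PG MeasureTheory Pool.Agent.Q183.BX

open scoped Real

theorem result {n : ℕ} {p : Fin (n + 3) → ℂ} (hp : IsConvexPolygon p) {Y : Type*}
    [MeasurableSpace Y] [MeasurableSpace.CountablyGenerated Y] {ν : Measure Y}
    [IsProbabilityMeasure ν] {S : ℝ → Y → Y} {R : Fin (n + 3) → Y ≃ᵐ Y}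
    (hS : IsFibreMotion ν S R)
    (hR : ∀ G : Y → ℝ, Measurable G → (∀ t, ∀ᵐ y ∂ν, G (S t y) = G y) →
      ∀ k, ∀ᵐ y ∂ν, G (R k y) = G y) :
    (∃ i, Irrational (ang p i / π)) ↔
      ∀ F : (ℂ × ℝ) × Y → ℝ, Measurable F → IsSkewInvariant p ν S R F → SlowVariation p ν F →
        ∃ G : Y → ℝ, Measurable G ∧ (∀ t, ∀ᵐ y ∂ν, G (S t y) = G y) ∧
          ∀ᵐ q : (ℂ × ℝ) × Y ∂((volume : Measure (ℂ × ℝ)).prod ν), q.1 ∈ phase p →
            F q = G q.2 :=
  flow_main hS hp hR

end Pool.Agent.Results.MP_7bc51d_an.FibreFlows
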