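import Pool.Agent.Q183.BX.FinB

set_option autoImplicit false

/-!
# Skew products over billiards in all convex polygons

A point of a probability space `Y` is moved by a measure preserving flow `S` during the free motion
of the billiard ball in the convex polygon `P` and by an invertible measure preserving map `R k` at
each reflection in side `k`; the maps `R k` commute with `S`, but not necessarily with each other.
Let `F` be a measurable function of the state and the point of `Y` which is invariant under this
motion. Let `D h` be the mean change of `F` if all directions are turned by the angle `h`. If the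
lower limit of `D h / (h log (1 / h))` as `h` tends to `0` is `0`, then `F` is a function `G (θ, y)`
of the direction `θ` and the point `y`, for almost every `θ` it is invariant under `S` as a function
of `y`, and `G (2 τ - θ, R k y) = G (θ, y)` if `θ` points out of the side `k` of direction `τ`.
-/

namespace Pool.Agent.Results.MP_7bc51d_an.SkewProductsAllPolygons

open Pool.Agent.W780 Pool.Agent.W780.BB Pool.Agent.W780.PG MeasureTheory Pool.Agent.Q183.BX

open scoped Real

theorem result {n : ℕ} {p : Fin (n + 3) → ℂ} (hp : IsConvexPolygon p) {Y : Type*}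
    [MeasurableSpace Y] [MeasurableSpace.CountablyGenerated Y] {ν : Measure Y}
    [IsProbabilityMeasure ν] {S : ℝ → Y → Y} {R : Fin (n + 3) → Y ≃ᵐ Y}
    (hS : IsFibreMotion ν S R) {F : (ℂ × ℝ) × Y → ℝ} (hF : Measurable F)
    (hI : IsSkewInvariant p ν S R F) (hV : SlowVariation p ν F) :
    ∃ G : ℝ × Y → ℝ, Measurable G ∧ (∀ θ, ∀ᵐ y ∂ν, G (θ + 2 * π, y) = G (θ, y)) ∧
      (∀ᵐ θ : ℝ, ∀ t, ∀ᵐ y ∂ν, G (θ, S t y) = G (θ, y)) ∧
      (∀ k, ∀ᵐ θ : ℝ, Real.sin (θ - tau p k) < 0 →
        ∀ᵐ y ∂ν, G (2 * tau p k - θ, R k y) = G (θ, y)) ∧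
      ∀ᵐ q : (ℂ × ℝ) × Y ∂((volume : Measure (ℂ × ℝ)).prod ν), q.1 ∈ phase p →
        F q = G (q.1.2, q.2) :=
  all_skew hS hp hF hI hV

end Pool.Agent.Results.MP_7bc51d_an.SkewProductsAllPolygons
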