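import Pool.Agent.Q183.BX.Tile

set_option autoImplicit false

/-!
# Flat surfaces tiled by copies of a convex polygon

Take finitely many copies of the convex polygon `P`, numbered by `Y`. A ball moves in the copies: at
side `k` of the copy `y` it is reflected and continues in the copy `R k y`, where the `R k` are
arbitrary permutations of `Y`. If all `R k` are involutions, this is the geodesic flow on the flat
surface with cone points and walls which consists of the copies of `P`, where the side `k` of the
copy `y` is glued to the side `k` of the copy `R k y`, a wall if `R k y = y`. All invariant functions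
of finite directional variation are constant if and only if some angle of `P` is not a rational
multiple of `π` and the group generated by the `R k` is transitive, that is, the surface is
connected.
-/

namespace Pool.Agent.Results.MP_7bc51d_an.TiledSurfaces

open Pool.Agent.W780 Pool.Agent.W780.BB Pool.Agent.W780.PG MeasureTheory Pool.Agent.Q183.BX

open scoped Real

theorem result {n : ℕ} {p : Fin (n + 3) → ℂ} (hp : IsConvexPolygon p) {Y : Type*} [Fintype Y]
    [Nonempty Y] (R : Fin (n + 3) → Equiv.Perm Y) :
    ((∃ i, Irrational (ang p i / π)) ∧
      ∀ y y' : Y, ∃ σ ∈ Subgroup.closure (Set.range R), σ y = y') ↔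
    ∀ F : ℂ × ℝ → Y → ℝ, (∀ y, Measurable fun x => F x y) → IsTileInvariant p R F →
      TileVariation p F → ∃ c : ℝ, ∀ᵐ x : ℂ × ℝ, x ∈ phase p → ∀ y, F x y = c :=
  tile_main hp R

end Pool.Agent.Results.MP_7bc51d_an.TiledSurfaces
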